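import Mathlib

/-!
# Project SN: the Santalo-type inequality for sections by an unconditional body : statements

`|K ∩ T| |K° ∩ T| ≤ |B ∩ T|²` for all symmetric compact `K` and all unconditional convex `T`. Everything is stated in
`Fin n → ℝ`. Proof: Steiner symmetrization `St i K` in the coordinate directions increases both factors; the case
where `K` is unconditional is the multiplicative form of the Prekopa-Leindler inequality.
Available on origin/main: `Pool.Agent.H736.LF.t_PL1 : Pool.Agent.H964.LF.S_PL1` (one-dimensional Prekopa-Leindler,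
file `Pool/Agent/H736/LF/PL1.lean`; check the namespace) and `Pool.Agent.H404.LF.t_PLM` (`Pool/Agent/H404/LF/PLM.lean`,
the induction over the coordinates by `lmarginal`).
-/

set_option autoImplicit false

open MeasureTheory Set Function
open scoped ENNReal

namespace Pool.Agent.H770.SN

/-- the reflection in the coordinate `i` -/
def Rf {n : ℕ} (i : Fin n) (x : Fin n → ℝ) : Fin n → ℝ := update x i (-(x i))

/-- unconditional sets -/
def Unc {n : ℕ} (T : Set (Fin n → ℝ)) : Prop := ∀ i, ∀ x ∈ T, Rf i x ∈ T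

/-- the polar set -/
def Pol {n : ℕ} (K : Set (Fin n → ℝ)) : Set (Fin n → ℝ) := {y | ∀ x ∈ K, ∑ j, x j * y j ≤ 1}

/-- the Steiner symmetral -/
def St {n : ℕ} (i : Fin n) (K : Set (Fin n → ℝ)) : Set (Fin n → ℝ) :=
  {x | ∃ a b : ℝ, update x i a ∈ K ∧ update x i b ∈ K ∧ x i = (a - b) / 2}

/-- the Euclidean ball -/
def Bal (n : ℕ) : Set (Fin n → ℝ) := {x | ∑ j, x j ^ 2 ≤ 1}

/-- **SN0** (`n`-dimensional Prekopa-Leindler). -/
def S_PLn : Prop := ∀ (n : ℕ) (f g h : (Fin n → ℝ) → ℝ≥0∞), Measurable f → Measurable g → Measurable h →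
  (∀ x y, f x * g y ≤ h (fun i => (x i + y i) / 2) ^ 2) → (∫⁻ x, f x) * (∫⁻ y, g y) ≤ (∫⁻ z, h z) ^ 2

/-- **SN1** (difference bodies). -/
def S_BMn : Prop := ∀ (n : ℕ) (A D : Set (Fin n → ℝ)), MeasurableSet A → MeasurableSet D →
  (∀ u ∈ A, ∀ w ∈ A, (fun i => (u i - w i) / 2) ∈ D) → volume A ≤ volume D

/-- **SN1'** (the same on the line). -/
def S_BM1 : Prop := ∀ (A D : Set ℝ), MeasurableSet A → MeasurableSet D →
  (∀ u ∈ A, ∀ w ∈ A, (u - w) / 2 ∈ D) → volume A ≤ volume D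

/-- **SN2** (compactness). Proof. `St i K` is the image of the compact set `{(u, v) ∈ K × K : u j = v j for j ≠ i}` under the
continuous map `(u, v) ↦ update u i ((u i - v i) / 2)`. -/
def S_Stc : Prop := ∀ (n : ℕ) (i : Fin n) (K : Set (Fin n → ℝ)), IsCompact K → IsCompact (St i K)

/-- **SN3** (symmetries). Proof. `update (-x) i (-a) = -update x i a`; `update (Rf i x) i a = update x i a` (exchange `a`, `b`);
`update (Rf j x) i a = Rf j (update x i a)` for `j ≠ i`. -/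
def S_Stm : Prop := ∀ (n : ℕ) (i : Fin n) (K : Set (Fin n → ℝ)),
  ((∀ x ∈ K, -x ∈ K) → ∀ x ∈ St i K, -x ∈ St i K) ∧ (∀ x ∈ St i K, Rf i x ∈ St i K) ∧
    ∀ j, j ≠ i → (∀ x ∈ K, Rf j x ∈ K) → ∀ x ∈ St i K, Rf j x ∈ St i K

/-- **SN4** (the body). Proof. `n = m + 1`; Fubini by `volume_preserving_piFinSuccAbove` (`(Fin (m+1) → ℝ) ≃ ℝ × (Fin m → ℝ)`,
`x = i.insertNth t y`), integrate over `t` first. For fixed `y` apply `S_BM1` to `A = {t | insertNth i t y ∈ K ∩ T}`,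
`D = {t | insertNth i t y ∈ St i K ∩ T}`: for `a, b ∈ A` and `c = (a - b) / 2`, `update (insertNth i c y) i a = insertNth i a y ∈ K`
(the same for `b`), and `insertNth i (-b) y = Rf i (insertNth i b y) ∈ T`, so `insertNth i c y ∈ T` by convexity. -/
def S_Kside : Prop := S_BM1 → ∀ (n : ℕ) (i : Fin n) (K T : Set (Fin n → ℝ)), MeasurableSet K →
  MeasurableSet (St i K) → MeasurableSet T → Convex ℝ T → (∀ x ∈ T, Rf i x ∈ T) →
  volume (K ∩ T) ≤ volume (St i K ∩ T)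

/-- **SN5** (the polar). Proof. `Pol K` is closed. `n = m + 1`; Fubini as in `S_Kside`, but integrate over `y ∈ Fin m → ℝ` first. For
fixed `t` apply `S_BMn m` to `A = {y | insertNth i t y ∈ Pol K ∩ T}`, `D = {y | insertNth i t y ∈ Pol (St i K) ∩ T}`. Let `u, w ∈ A`,
`z = (u - w) / 2`. For `x ∈ St i K` with `x i = (a - b) / 2` and `x'` the other coordinates,
`⟨x, (t, z)⟩ = (1/2) (⟨(a, x'), (t, u)⟩ + ⟨-(b, x'), (t, w)⟩) ≤ 1`, as `(a, x') ∈ K` and `-(b, x') ∈ K`. And `(t, u), (t, w) ∈ T` give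
`(t, -w) ∈ T` (`T` is unconditional: change the signs of all the coordinates `j ≠ i`, one after the other; e.g. by induction over a
finset of coordinates), so `(t, z) ∈ T` by convexity. -/
def S_Pside : Prop := S_BMn → ∀ (n : ℕ) (i : Fin n) (K T : Set (Fin n → ℝ)), (∀ x ∈ K, -x ∈ K) →
  MeasurableSet T → Convex ℝ T → Unc T → volume (Pol K ∩ T) ≤ volume (Pol (St i K) ∩ T)

/-- **SN6** (iteration). Proof. Induction over a finset `s` of coordinates: there is a compact symmetric `K'` with `Rf j x ∈ K'` for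
`x ∈ K'`, `j ∈ s` and the two inequalities; `s = univ`. -/
def S_iter : Prop := S_Stc → S_Stm → S_Kside → S_Pside → S_BM1 → S_BMn →
  ∀ (n : ℕ) (K T : Set (Fin n → ℝ)), IsCompact K → (∀ x ∈ K, -x ∈ K) → MeasurableSet T → Convex ℝ T → Unc T →
  ∃ K' : Set (Fin n → ℝ), IsCompact K' ∧ Unc K' ∧ volume (K ∩ T) ≤ volume (K' ∩ T) ∧
    volume (Pol K ∩ T) ≤ volume (Pol K' ∩ T)

/-- **SN7** (multiplicative Prekopa-Leindler on the line, even functions). Proof. `∫_ℝ f = 2 ∫_(0,∞) f` for even `f`, and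
`∫_(0,∞) f = ∫_ℝ e^u f(e^u) du` (`MeasureTheory.lintegral_image_eq_lintegral_abs_deriv_mul` for `exp` on `univ`, image `Ioi 0`).
Apply `Pool.Agent.H736.LF` `t_PL1 : Pool.Agent.H964.LF.S_PL1` (`Pool/Agent/H736/LF/PL1.lean`) to `e^u f(e^u)`, `e^v g(e^v)`,
`e^w h(e^w)`: `e^((u+v)/2) = √(e^u e^v)`. -/
def S_M1 : Prop := ∀ f g h : ℝ → ℝ≥0∞, Measurable f → Measurable g → Measurable h → (∀ t, f (-t) = f t) →
  (∀ t, g (-t) = g t) → (∀ t, h (-t) = h t) →
  (∀ s t : ℝ, 0 < s → 0 < t → f s * g t ≤ h (Real.sqrt (s * t)) ^ 2) →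
  (∫⁻ s, f s) * (∫⁻ t, g t) ≤ (∫⁻ s, h s) ^ 2

/-- **SN8** (the same in dimension `n`). Proof. As `Pool.Agent.H404.LF.t_PLM` (`Pool/Agent/H404/LF/PLM.lean`): induction over a finset
`s` of coordinates for `∫⋯∫⁻_s, F ∂(fun _ => volume)` (`lmarginal`), for all `x, y` which are positive in the coordinates outside of `s`,
with `S_M1` in the step (`∫⋯∫⁻_s F (update x i (-a)) = ∫⋯∫⁻_s F (update x i a)` for `i ∉ s`, as `F (Rf i x) = F x`). -/
def S_Mn : Prop := S_M1 → ∀ (n : ℕ) (F G H : (Fin n → ℝ) → ℝ≥0∞), Measurable F → Measurable G → Measurable H →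
  (∀ i x, F (Rf i x) = F x) → (∀ i x, G (Rf i x) = G x) → (∀ i x, H (Rf i x) = H x) →
  (∀ x y : Fin n → ℝ, (∀ i, 0 < x i) → (∀ i, 0 < y i) → F x * G y ≤ H (fun i => Real.sqrt (x i * y i)) ^ 2) →
  (∫⁻ x, F x) * (∫⁻ y, G y) ≤ (∫⁻ z, H z) ^ 2

/-- **SN9** (the unconditional case). Proof. `S_Mn` for the indicators of `K ∩ T`, `Pol K ∩ T`, `Bal n ∩ T` (`Pol K` is closed and
unconditional, `Rf i` is an involution and `∑ x j (Rf i y) j = ∑ (Rf i x) j y j`). Let `x ∈ K ∩ T`, `y ∈ Pol K ∩ T` with positive coordinates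
and `z i = √(x i y i)`. Then `∑ z i ² = ∑ x i y i ≤ 1`, `(x + y) / 2 ∈ T` and `0 ≤ z i ≤ (x i + y i) / 2`. A convex unconditional set
which contains `w ≥ 0` contains all `z` with `0 ≤ z ≤ w` (change one coordinate after the other: `update w i c` is a convex
combination of `w` and `Rf i w` for `|c| ≤ w i`). -/
def S_unc : Prop := (∀ (n : ℕ) (F G H : (Fin n → ℝ) → ℝ≥0∞), Measurable F → Measurable G → Measurable H →
  (∀ i x, F (Rf i x) = F x) → (∀ i x, G (Rf i x) = G x) → (∀ i x, H (Rf i x) = H x) →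
  (∀ x y : Fin n → ℝ, (∀ i, 0 < x i) → (∀ i, 0 < y i) → F x * G y ≤ H (fun i => Real.sqrt (x i * y i)) ^ 2) →
  (∫⁻ x, F x) * (∫⁻ y, G y) ≤ (∫⁻ z, H z) ^ 2) →
  ∀ (n : ℕ) (K T : Set (Fin n → ℝ)), MeasurableSet K → Unc K → MeasurableSet T → Convex ℝ T → Unc T →
  volume (K ∩ T) * volume (Pol K ∩ T) ≤ volume (Bal n ∩ T) ^ 2

/-- **SN10** (transfer to Euclidean space). Proof. `EuclideanSpace.volume_preserving_ofLp` (or `..._measurableEquiv`) maps `K`, `T` to
their images in `Fin n → ℝ`; `inner ℝ x y = ∑ x j y j` up to the order, `‖x‖ ^ 2 = ∑ x j ^ 2` (`EuclideanSpace.norm_sq_eq`). -/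
def S_euc : Prop := (∀ (n : ℕ) (K T : Set (Fin n → ℝ)), IsCompact K → (∀ x ∈ K, -x ∈ K) → MeasurableSet T →
    Convex ℝ T → Unc T → volume (K ∩ T) * volume (Pol K ∩ T) ≤ volume (Bal n ∩ T) ^ 2) →
  ∀ (n : ℕ) (K T : Set (EuclideanSpace ℝ (Fin n))), IsCompact K → (∀ x ∈ K, -x ∈ K) → MeasurableSet T →
    Convex ℝ T → (∀ (i : Fin n), ∀ x ∈ T, WithLp.toLp 2 (Rf i (fun j => x j)) ∈ T) →
    volume (K ∩ T) * volume ({y : EuclideanSpace ℝ (Fin n) | ∀ x ∈ K, inner ℝ x y ≤ (1 : ℝ)} ∩ T) ≤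
      volume (Metric.closedBall (0 : EuclideanSpace ℝ (Fin n)) 1 ∩ T) ^ 2

end Pool.Agent.H770.SN
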