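import Pool.Agent.H770.SN.Stm

set_option autoImplicit false

open MeasureTheory Set Function
open scoped ENNReal

namespace Pool.Agent.H770.SN

theorem lm_even {n : ℕ} (F : (Fin n → ℝ) → ℝ≥0∞) (eF : ∀ i x, F (Rf i x) = F x) (s : Finset (Fin n)) (i : Fin n)
    (hi : i ∉ s) (x : Fin n → ℝ) (a : ℝ) :
    (∫⋯∫⁻_s, F ∂(fun _ => volume)) (update x i (-a)) = (∫⋯∫⁻_s, F ∂(fun _ => volume)) (update x i a) := by
  unfold lmarginal
  refine lintegral_congr fun y => ?_
  rw [← eF i (updateFinset (update x i a) s y)]
  congr 1
  funext j
  unfold Rf updateFinset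
  by_cases hj : j = i
  · subst hj
    simp [hi]
  · simp [hj, update_of_ne]

theorem t_Mn : S_Mn := by
  intro h1 n F G H hF hG hH eF eG eH hyp
  have key : ∀ s : Finset (Fin n), ∀ x y : Fin n → ℝ, (∀ i, i ∉ s → 0 < x i) → (∀ i, i ∉ s → 0 < y i) →
      (∫⋯∫⁻_s, F ∂(fun _ => volume)) x * (∫⋯∫⁻_s, G ∂(fun _ => volume)) y ≤
        (∫⋯∫⁻_s, H ∂(fun _ => volume)) (fun i => Real.sqrt (x i * y i)) ^ 2 := by
    intro s
    induction s using Finset.induction_on with
    | empty =>
      intro x y hx hy
      rw [lmarginal_empty, lmarginal_empty, lmarginal_empty]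
      exact hyp x y (fun i => hx i (by simp)) (fun i => hy i (by simp))
    | insert i s hi ih =>
      intro x y hx hy
      rw [lmarginal_insert F hF hi, lmarginal_insert G hG hi, lmarginal_insert H hH hi]
      refine h1 _ _ _ ((hF.lmarginal _).comp (measurable_update x))
        ((hG.lmarginal _).comp (measurable_update y))
        ((hH.lmarginal _).comp (measurable_update _)) (fun t => lm_even F eF s i hi x t)
        (fun t => lm_even G eG s i hi y t) (fun t => lm_even H eH s i hi _ t) fun a b ha hb => ?_
      have h2 := ih (update x i a) (update y i b) (by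
        intro j hj
        by_cases hji : j = i
        · subst hji
          simpa using ha
        · rw [update_of_ne hji]
          exact hx j (by simp [hji, hj])) (by
        intro j hj
        by_cases hji : j = i
        · subst hji
          simpa using hb
        · rw [update_of_ne hji]
          exact hy j (by simp [hji, hj]))
      have e : (fun j => Real.sqrt (update x i a j * update y i b j)) =
          update (fun j => Real.sqrt (x j * y j)) i (Real.sqrt (a * b)) := by
        funext j
        by_cases hji : j = i
        · subst hji
          simp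
        · simp [update_of_ne hji]
      rw [e] at h2
      exact h2
  have h3 := key Finset.univ 0 0 (fun i hi => absurd (Finset.mem_univ i) hi) (fun i hi => absurd (Finset.mem_univ i) hi)
  rw [lmarginal_univ, lmarginal_univ, lmarginal_univ] at h3
  exact h3

end Pool.Agent.H770.SN
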