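import Pool.Agent.H770.SN.Stm
import Pool.Agent.H736.LF.PL1
import Pool.Agent.H404.LF.PLM

set_option autoImplicit false

open MeasureTheory Set Function
open scoped ENNReal

namespace Pool.Agent.H770.SN

open Pool.Agent.H964.LF

theorem sq_le {a b : ℝ≥0∞} (h : a ^ 2 ≤ b ^ 2) : a ≤ b := by
  by_contra hc
  have hc' : b < a := not_le.mp hc
  have : b ^ 2 < a ^ 2 := by
    rw [sq, sq]
    exact ENNReal.mul_lt_mul hc' hc'
  exact absurd h (not_le.mpr this)

theorem t_PLn : S_PLn := by
  intro n f g h hf hg hh H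
  have h1 := Pool.Agent.H404.LF.t_PLM Pool.Agent.H736.LF.t_PL1 (Fin n) Finset.univ f g h hf hg hh H 0 0
  unfold mg at h1
  rw [lmarginal_univ, lmarginal_univ, lmarginal_univ] at h1
  exact h1

theorem t_BMn : S_BMn := by
  intro n A D hA hD hAD
  have hf : Measurable (A.indicator (fun _ : Fin n → ℝ => (1 : ℝ≥0∞))) := measurable_const.indicator hA
  have hg : Measurable (fun y : Fin n → ℝ => A.indicator (fun _ => (1 : ℝ≥0∞)) (-y)) := hf.comp measurable_neg
  have hh : Measurable (D.indicator (fun _ : Fin n → ℝ => (1 : ℝ≥0∞))) := measurable_const.indicator hD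
  have h1 := t_PLn n _ _ _ hf hg hh (by
    intro x y
    by_cases hx : x ∈ A
    · by_cases hy : -y ∈ A
      · have h2 := hAD x hx (-y) hy
        have e : (fun i => (x i - (-y) i) / 2) = fun i => (x i + y i) / 2 := by
          funext i
          simp
        rw [e] at h2
        simp [indicator_of_mem hx, indicator_of_mem hy, indicator_of_mem h2]
      · simp [indicator_of_notMem hy]
    · simp [indicator_of_notMem hx])
  have e1 : ∫⁻ x, A.indicator (fun _ : Fin n → ℝ => (1 : ℝ≥0∞)) x = volume A := by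
    rw [lintegral_indicator hA]
    simp
  have e2 : ∫⁻ x, D.indicator (fun _ : Fin n → ℝ => (1 : ℝ≥0∞)) x = volume D := by
    rw [lintegral_indicator hD]
    simp
  have e3 : ∫⁻ y, (fun y : Fin n → ℝ => A.indicator (fun _ => (1 : ℝ≥0∞)) (-y)) y = volume A := by
    rw [← e1]
    exact (Measure.measurePreserving_neg (volume : Measure (Fin n → ℝ))).lintegral_comp hf
  rw [e1, e2, e3, ← sq] at h1
  exact sq_le h1

theorem t_BM1 : S_BM1 := by
  intro A D hA hD hAD
  have hf : Measurable (A.indicator (fun _ : ℝ => (1 : ℝ≥0∞))) := measurable_const.indicator hA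
  have hg : Measurable (fun y : ℝ => A.indicator (fun _ => (1 : ℝ≥0∞)) (-y)) := hf.comp measurable_neg
  have hh : Measurable (D.indicator (fun _ : ℝ => (1 : ℝ≥0∞))) := measurable_const.indicator hD
  have h1 := Pool.Agent.H736.LF.t_PL1 _ _ _ hf hg hh (by
    intro x y
    by_cases hx : x ∈ A
    · by_cases hy : -y ∈ A
      · have h2 := hAD x hx (-y) hy
        have e : (x - (-y)) / 2 = (x + y) / 2 := by ring
        rw [e] at h2
        simp [indicator_of_mem hx, indicator_of_mem hy, indicator_of_mem h2]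
      · simp [indicator_of_notMem hy]
    · simp [indicator_of_notMem hx])
  have e1 : ∫⁻ x, A.indicator (fun _ : ℝ => (1 : ℝ≥0∞)) x = volume A := by
    rw [lintegral_indicator hA]
    simp
  have e2 : ∫⁻ x, D.indicator (fun _ : ℝ => (1 : ℝ≥0∞)) x = volume D := by
    rw [lintegral_indicator hD]
    simp
  have e3 : ∫⁻ y, (fun y : ℝ => A.indicator (fun _ => (1 : ℝ≥0∞)) (-y)) y = volume A := by
    rw [← e1]
    exact (Measure.measurePreserving_neg (volume : Measure ℝ)).lintegral_comp hf
  rw [e1, e2, e3, ← sq] at h1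
  exact sq_le h1

end Pool.Agent.H770.SN
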